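import Pool.Agent.W527.PC.Stm

namespace Pool.Agent.W670.PC

open Pool.Agent.W527.PC

theorem zp_root (p : ℕ) [Fact p.Prime] (hp2 : p ≠ 2) (x : ℤ_[p]) (hx : x ^ p = 1) : x = 1 := by
  have hp : Prime (p : ℤ_[p]) := PadicInt.prime_p
  have hodd : Odd p := (Fact.out : p.Prime).odd_of_ne_two hp2
  have hmod : (p : ℤ_[p]) ∣ x - 1 := by
    have h1 : PadicInt.toZMod x = 1 := by
      have h2 : PadicInt.toZMod (x ^ p) = 1 := by rw [hx, map_one]
      rw [map_pow, ZMod.pow_card] at h2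
      exact h2
    have h3 : x - 1 ∈ RingHom.ker (PadicInt.toZMod (p := p)) := by
      rw [RingHom.mem_ker, map_sub, h1, map_one, sub_self]
    rw [PadicInt.ker_toZMod, PadicInt.maximalIdeal_eq_span_p, Ideal.mem_span_singleton] at h3
    exact h3
  have hndvd : ¬ (p : ℤ_[p]) ∣ x := by
    intro h
    have h4 : (p : ℤ_[p]) ∣ 1 := by
      have := dvd_sub h hmod
      simpa using this
    exact hp.not_isUnit (isUnit_of_dvd_one h4)
  have key := emultiplicity_pow_prime_sub_pow_prime hp hodd (x := x) (y := 1) hmod hndvd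
  rw [hx, one_pow, sub_self, emultiplicity_zero] at key
  by_contra hne
  have hne' : x - 1 ≠ 0 := sub_ne_zero.mpr hne
  have hfin : FiniteMultiplicity (p : ℤ_[p]) (x - 1) :=
    FiniteMultiplicity.of_prime_left hp hne'
  rw [hfin.emultiplicity_eq_multiplicity] at key
  exact absurd key (by
    intro h
    have h5 : (⊤ : ℕ∞) = ((multiplicity (p : ℤ_[p]) (x - 1) + 1 : ℕ) : ℕ∞) := by
      rw [h]; push_cast; rfl
    exact ENat.natCast_ne_top _ h5.symm)

theorem qp_root (p : ℕ) [Fact p.Prime] (hp2 : p ≠ 2) (x : ℚ_[p]) (hn : ‖x‖ ≤ 1)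
    (hx : x ^ p = 1) : x = 1 := by
  have h := zp_root p hp2 ⟨x, hn⟩ (by
    apply Subtype.ext
    push_cast
    simpa using hx)
  have := congrArg (Subtype.val) h
  simpa using this

theorem isCompact_unit (p : ℕ) [Fact p.Prime] :
    IsCompact {x : ℚ_[p]ˣ | ‖(x : ℚ_[p])‖ = 1} := by
  have hc : Continuous (PadicInt.Coe.ringHom (p := p) : ℤ_[p] →* ℚ_[p]) := continuous_subtype_val
  have hcont : Continuous (Units.map (PadicInt.Coe.ringHom (p := p) : ℤ_[p] →* ℚ_[p])) :=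
    Continuous.units_map _ hc
  have hr := isCompact_range hcont
  convert hr using 1
  ext x
  constructor
  · intro hx
    have hx' : ‖(x : ℚ_[p])‖ = 1 := hx
    refine ⟨⟨⟨(x : ℚ_[p]), hx'.le⟩, ⟨((x⁻¹ : ℚ_[p]ˣ) : ℚ_[p]), ?_⟩, ?_, ?_⟩, ?_⟩
    · rw [Units.val_inv_eq_inv_val, norm_inv, hx', inv_one]
    · apply Subtype.ext
      simp
    · apply Subtype.ext
      simp
    · apply Units.ext
      rfl
  · rintro ⟨u, rfl⟩
    show ‖((u : ℤ_[p]) : ℚ_[p])‖ = 1
    have := PadicInt.norm_units u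
    simpa using this

theorem t_COMPACT : S_COMPACT := by
  intro Φ _ p _ Λ hp2 hΛ
  have hC : IsCompact (Set.pi Set.univ (fun _ : Φ => {x : ℚ_[p]ˣ | ‖(x : ℚ_[p])‖ = 1})) :=
    isCompact_univ_pi (fun _ => isCompact_unit p)
  have hsub : (Λ.topologicalClosure : Set (Φ → ℚ_[p]ˣ)) ⊆
      Set.pi Set.univ (fun _ : Φ => {x : ℚ_[p]ˣ | ‖(x : ℚ_[p])‖ = 1}) := by
    rw [Subgroup.topologicalClosure_coe]
    apply closure_minimal _ hC.isClosed
    intro u hu φ _
    exact hΛ u hu φ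
  refine ⟨hC.of_isClosed_subset Λ.isClosed_topologicalClosure hsub, ?_⟩
  intro a ha hap
  funext φ
  apply Units.ext
  have hn : ‖(a φ : ℚ_[p])‖ = 1 := hsub ha φ (Set.mem_univ _)
  refine qp_root p hp2 _ hn.le ?_
  have h1 := congrFun hap φ
  have h2 := congrArg (Units.val) h1
  simpa using h2

end Pool.Agent.W670.PC
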